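import Pool.Agent.Helper274.CoverL

/-!
# Covering by translates of a random set: the sharp uncovered proportion

Refinement of `Pool.Agent.Helper274.Cover.{block_step, whp_final}`: with blocks of length
`|L| / R`, `R → ∞`, with high probability every `T` with at most `C √N` elements leaves at least
`(exp (-C) - δ) N` points uncovered.
-/

set_option autoImplicit false
set_option linter.unusedSectionVars false

open Finset Filter

namespace Pool.Agent.Y415.CV

open Pool.Agent.Helper274.Cover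

section
variable {G : Type*} [AddCommGroup G] [Fintype G] [DecidableEq G]

/-- One block. -/
theorem block_step'
    (K n Z' g Λ s0 R : ℕ) (C ε b β : ℝ) (L : List G) (hnd : L.Nodup) (hK : 1 ≤ K)
    (hC0 : 0 ≤ C) (hR : 1 ≤ R)
    (hΛ : 1 ≤ Λ) (hL : 1 ≤ L.length) (hLN : L.length ^ 2 ≤ Fintype.card G)
    (hβ : (1 / 4) ^ n * (Real.exp (12 * K) + 2) ≤ β)
    (hTr : TrOK ((Λ:ℝ) ^ g)⁻¹ (FL g (2 * n) Λ) K s0 b (ε * K * (L.length : ℝ) ^ 2) L)
    (hε : 0 ≤ ε)
    (hMom : MomOK K (2 * n) Z' (12 * K) 1 L)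
    (htail : (1 - ((Λ:ℝ) ^ g)⁻¹) ^ Z' * (1 + 2 * (L.length:ℝ)) ^ (2 * n) ≤ 1)
    (hb : (K * L.length : ℝ) ≤ b)
    (T : Finset G) (hT : T.card ≤ K * L.length)
    (hTC : (T.card : ℝ) ≤ C * L.length) (i j : ℕ) (hij : i ≤ j) (hj : j ≤ L.length)
    (hblock : R * (j - i) ≤ L.length) :
    (1 - C / R) * (unc T (suf i L) / Fintype.card G) - (C / R * β + ε * K) ≤
      unc T (suf j L) / Fintype.card G := by
  obtain ⟨S, hSc, hS⟩ := hTr T hT
  have htr := hS i j (hij.trans hj) hj
  set k : ℝ := (L.length : ℝ) with hk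
  set N : ℝ := (Fintype.card G : ℝ) with hN
  have hkpos : (1:ℝ) ≤ k := by rw [hk]; exact_mod_cast hL
  have hkN : k ^ 2 ≤ N := by rw [hk, hN]; exact_mod_cast hLN
  have hKr : (1:ℝ) ≤ K := by exact_mod_cast hK
  have hNpos : 0 < N := lt_of_lt_of_le (by positivity) hkN
  have hTr' : (T.card : ℝ) ≤ K * k := by rw [hk]; exact_mod_cast hT
  have hTC' : (T.card : ℝ) ≤ C * k := hTC
  have hstep : ∀ l y, (y :: l) <:+ L → unc T l - unc T (y :: l) ≤
      min (phi (bin ((Λ:ℝ) ^ g)⁻¹ (FL g (2 * n) Λ)) T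
        (T.filter (fun t => t - y ∉ S)) l y) b := by
    intro l y hs
    have hnd' : (y :: l).Nodup := hnd.sublist hs.sublist
    have hy : y ∉ l := (List.nodup_cons.mp hnd').1
    exact unc_step g n Λ hΛ T l y hy S b (hTr'.trans hb)
  have htel := telescope (fun l => unc T l)
    (fun l y => min (phi (bin ((Λ:ℝ) ^ g)⁻¹ (FL g (2 * n) Λ)) T
        (T.filter (fun t => t - y ∉ S)) l y) b) L hstep i j hij hj
  set u : ℝ := unc T (suf i L) / N with hu
  have hrhs : stepSum (fun l (_ : G) => ind i j l *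
      ((T.card : ℝ) / Fintype.card G * ∑ x, bin ((Λ:ℝ) ^ g)⁻¹ (FL g (2 * n) Λ) (cnt T l x))) L ≤
      stepSum (fun l (_ : G) => ind i j l * ((C * k) * (u + β))) L := by
    apply stepSum_mono
    intro l y hs
    by_cases hil : i ≤ l.length ∧ l.length < j
    · have hind : ind i j l = 1 := by unfold ind; rw [if_pos hil]
      rw [hind, one_mul, one_mul]
      have hl : l <:+ L := (List.suffix_cons y l).trans hs
      have hsuf : suf i L <:+ l := by
        have e1 := suf_suffix i L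
        exact List.suffix_of_suffix_length_le e1 hl (by rw [length_suf (hij.trans hj)]; exact hil.1)
      have hmono : unc T l ≤ unc T (suf i L) := unc_le_of_suffix T _ _ hsuf
      have h1 := sum_bin_FL_le g n Λ Z' hΛ T l
      have h2 := hMom T hT l hl
      rw [← hk, ← hN] at h2
      rw [← hN] at h1
      have h3 : (1 - ((Λ:ℝ) ^ g)⁻¹) ^ Z' * (1 + 2 * (l.length:ℝ)) ^ (2 * n) ≤ 1 := by
        refine le_trans ?_ htail
        have : (l.length : ℝ) ≤ k := by rw [hk]; exact_mod_cast hl.length_le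
        have h0 := (gamma_bounds g Λ hΛ).1
        gcongr
      have h4 : (1 + 12 * K / k) ^ l.length ≤ Real.exp (12 * K) := by
        calc (1 + 12 * K / k) ^ l.length ≤ (Real.exp (12 * K / k)) ^ l.length := by
              apply pow_le_pow_left₀ (by positivity)
              have := Real.add_one_le_exp (12 * (K:ℝ) / k)
              linarith
          _ = Real.exp (l.length * (12 * K / k)) := by rw [← Real.exp_nat_mul]
          _ ≤ Real.exp (12 * K) := by
              apply Real.exp_le_exp.mpr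
              have : (l.length : ℝ) ≤ k := by rw [hk]; exact_mod_cast hl.length_le
              calc (l.length : ℝ) * (12 * K / k) ≤ k * (12 * K / k) := by gcongr
                _ = 12 * K := by field_simp
      have h5 : ∑ x, bin ((Λ:ℝ) ^ g)⁻¹ (FL g (2 * n) Λ) (cnt T l x) ≤ N * (u + β) := by
        have h6 : Psi (2 * n) Z' T l + N * ((1 - ((Λ:ℝ) ^ g)⁻¹) ^ Z' *
            (1 + 2 * (l.length:ℝ)) ^ (2 * n)) ≤ N * (Real.exp (12 * K) + 2) := by
          have h7 : N * ((1 - ((Λ:ℝ) ^ g)⁻¹) ^ Z' * (1 + 2 * (l.length:ℝ)) ^ (2 * n)) ≤ N * 1 :=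
            mul_le_mul_of_nonneg_left h3 hNpos.le
          have h8 : N * ((1 + 12 * K / k) ^ l.length + 1) ≤ N * (Real.exp (12 * K) + 1) :=
            mul_le_mul_of_nonneg_left (by linarith) hNpos.le
          linarith
        calc ∑ x, bin ((Λ:ℝ) ^ g)⁻¹ (FL g (2 * n) Λ) (cnt T l x) ≤ unc T (suf i L) +
              (1 / 4) ^ n * (N * (Real.exp (12 * K) + 2)) := by
              have := mul_le_mul_of_nonneg_left h6 (show (0:ℝ) ≤ (1 / 4) ^ n by positivity)
              linarith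
          _ = N * u + N * ((1 / 4) ^ n * (Real.exp (12 * K) + 2)) := by
              rw [hu]; field_simp
          _ ≤ N * u + N * β := by gcongr
          _ = _ := by ring
      have h6 : (T.card : ℝ) / N ≤ C * k / N := by gcongr
      have h7 : 0 ≤ ∑ x, bin ((Λ:ℝ) ^ g)⁻¹ (FL g (2 * n) Λ) (cnt T l x) :=
        Finset.sum_nonneg (fun x _ => bin_FL_nonneg g n Λ _ hΛ)
      calc (T.card : ℝ) / N * ∑ x, bin ((Λ:ℝ) ^ g)⁻¹ (FL g (2 * n) Λ) (cnt T l x) ≤
          (C * k / N) * (N * (u + β)) := mul_le_mul h6 h5 h7 (by positivity)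
        _ = _ := by field_simp
    · have hind : ind i j l = 0 := by unfold ind; rw [if_neg hil]
      rw [hind, zero_mul, zero_mul]
  -- length of the window
  have hwin : stepSum (fun l (_ : G) => ind i j l) L ≤ (j:ℝ) - i := by
    have h := telescope (fun l : List G => (l.length : ℝ)) (fun _ _ => (-1:ℝ)) L (by
      intro l y _
      simp) i j hij hj
    rw [length_suf hj, length_suf (hij.trans hj)] at h
    have h2 := stepSum_mul (-1) (fun l (_ : G) => ind i j l) L
    have h3 : stepSum (fun l (_ : G) => ind i j l * (-1:ℝ)) L =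
        stepSum (fun l (_ : G) => (-1) * ind i j l) L := by
      apply stepSum_congr; intro l y _; ring
    rw [h3, h2] at h
    linarith
  have hβ0 : 0 ≤ β := le_trans (by positivity) hβ
  have hu0 : 0 ≤ u := by rw [hu]; unfold unc; positivity
  have hrhs2 : stepSum (fun l (_ : G) => ind i j l * ((C * k) * (u + β))) L ≤
      ((j:ℝ) - i) * ((C * k) * (u + β)) := by
    have h1 : stepSum (fun l (_ : G) => ind i j l * ((C * k) * (u + β))) L =
        ((C * k) * (u + β)) * stepSum (fun l (_ : G) => ind i j l) L := by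
      rw [← stepSum_mul]
      apply stepSum_congr; intro l y _; ring
    rw [h1, mul_comm]
    apply mul_le_mul_of_nonneg_right hwin (by positivity)
  have hblock' : (R:ℝ) * ((j:ℝ) - i) ≤ k := by
    have : (R * (j - i) : ℕ) ≤ L.length := hblock
    have h1 : ((R * (j - i) : ℕ) : ℝ) ≤ (L.length : ℝ) := by exact_mod_cast this
    push_cast [Nat.cast_sub hij] at h1
    rw [hk]; exact h1
  have hRr : (1:ℝ) ≤ R := by exact_mod_cast hR
  have hv0 : 0 ≤ C / R * (u + β) := by positivity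
  have hmain : unc T (suf i L) - unc T (suf j L) ≤ N * (C / R * (u + β)) + N * (ε * K) := by
    have e1 : ((j:ℝ) - i) * ((C * k) * (u + β)) =
        (R * ((j:ℝ) - i)) * k * (C / R * (u + β)) := by
      have : (R:ℝ) ≠ 0 := by positivity
      field_simp
    have e2 : (R * ((j:ℝ) - i)) * k * (C / R * (u + β)) ≤ k * k * (C / R * (u + β)) := by gcongr
    have e3 : k * k * (C / R * (u + β)) ≤ N * (C / R * (u + β)) := by
      have : k * k ≤ N := by nlinarith
      gcongr
    have e4 : ε * K * k ^ 2 ≤ N * (ε * K) := by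
      calc ε * K * k ^ 2 ≤ ε * K * N := by gcongr
        _ = _ := by ring
    linarith
  have hdiv : u - unc T (suf j L) / N ≤ C / R * (u + β) + ε * K := by
    rw [hu, ← sub_div, div_le_iff₀ hNpos]
    rw [hu] at hmain
    linarith
  linarith

end

lemma exists_R (C δ : ℝ) (hδ : 0 < δ) :
    ∃ R : ℕ, 1 ≤ R ∧ C ≤ R ∧ Real.exp (-C) - δ / 2 ≤ (1 - C / R) ^ (R + 1) := by
  have h1 := Real.tendsto_one_add_div_pow_exp (-C)
  have h2 : Tendsto (fun n : ℕ => 1 + -C / (n : ℝ)) atTop (nhds (1 + 0)) :=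
    tendsto_const_nhds.add (tendsto_const_div_atTop_nhds_zero_nat (-C))
  have h3 := h1.mul h2
  rw [add_zero, mul_one] at h3
  have h4 : ∀ᶠ n : ℕ in atTop, Real.exp (-C) - δ / 2 < (1 + -C / (n : ℝ)) ^ n * (1 + -C / (n : ℝ)) :=
    h3.eventually (lt_mem_nhds (by linarith))
  obtain ⟨R, hR, hR1, hR2⟩ := (h4.and ((eventually_ge_atTop 1).and
    (eventually_ge_atTop ⌈C⌉₊))).exists
  refine ⟨R, hR1, (Nat.le_ceil C).trans (by exact_mod_cast hR2), ?_⟩
  have e : (1 - C / (R:ℝ)) ^ (R + 1) = (1 + -C / (R : ℝ)) ^ R * (1 + -C / (R : ℝ)) := by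
    rw [← pow_succ]
    congr 1
    ring
  rw [e]
  exact hR.le

theorem whp_sharp (C : ℝ) (hC : 0 ≤ C) (δ : ℝ) (hδ : 0 < δ) :
    WHP (fun G _ _ _ L => L.Nodup → ∀ T : Finset G, (T.card : ℝ) ≤ C * L.length →
      (Real.exp (-C) - δ) * Fintype.card G ≤ unc T L) := by
  obtain ⟨R, hR1, hCR, hRexp⟩ := exists_R C δ hδ
  obtain ⟨K, hK, hCK⟩ : ∃ K : ℕ, 1 ≤ K ∧ C ≤ K :=
    ⟨⌈C⌉₊ + 1, by omega, by push_cast; linarith [Nat.le_ceil C]⟩
  have hKr : (1:ℝ) ≤ K := by exact_mod_cast hK
  have hRr : (1:ℝ) ≤ R := by exact_mod_cast hR1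
  -- choose n
  obtain ⟨n, hn⟩ := exists_pow_lt_of_lt_one
    (show (0:ℝ) < (δ / (8 * (C + 1))) / (Real.exp (12 * K) + 2) by positivity)
    (show (1 / 4 : ℝ) < 1 by norm_num)
  have hβ : (1 / 4 : ℝ) ^ n * (Real.exp (12 * K) + 2) ≤ δ / (8 * (C + 1)) := by
    rw [lt_div_iff₀ (by positivity)] at hn
    exact hn.le
  set β : ℝ := δ / (8 * (C + 1)) with hβdef
  have hβpos : 0 < β := by positivity
  set ε : ℝ := min 1 (δ / (4 * K * (R + 1))) with hε
  have hεpos : 0 < ε := by
    rw [hε]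
    exact lt_min one_pos (by positivity)
  have hε1 : ε ≤ 1 := min_le_left _ _
  have hεK : ((R:ℝ) + 1) * (ε * K) ≤ δ / 4 := by
    have h1 : ε ≤ δ / (4 * K * (R + 1)) := min_le_right _ _
    have h2 : ((R:ℝ) + 1) * (ε * K) ≤ ((R:ℝ) + 1) * (δ / (4 * K * (R + 1)) * K) := by gcongr
    refine h2.trans (le_of_eq ?_)
    field_simp
  have hβC : ((R:ℝ) + 1) * (C / R * β) ≤ δ / 4 := by
    have h1 : ((R:ℝ) + 1) * (C / R * β) = ((R + 1) / R) * (C * β) := by ring
    have h2 : ((R:ℝ) + 1) / R ≤ 2 := by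
      rw [div_le_iff₀ (by linarith)]
      linarith
    have h3 : C * β ≤ δ / 8 := by
      have h5 : C * β = (δ / 8) * (C / (C + 1)) := by
        rw [hβdef]
        field_simp
      have h4 : C / (C + 1) ≤ 1 := by
        rw [div_le_one (by linarith)]
        linarith
      rw [h5]
      calc δ / 8 * (C / (C + 1)) ≤ δ / 8 * 1 := by gcongr
        _ = δ / 8 := mul_one _
    rw [h1]
    calc ((R:ℝ) + 1) / R * (C * β) ≤ 2 * (δ / 8) := by gcongr
      _ = δ / 4 := by ring
  have h1 := whp_transfer K 2 (2 * (2 * n)) 0 hK (by omega) ε hεpos hε1 (FL 2 (2 * n))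
    (by
      filter_upwards [eventually_ge_atTop 1] with Λ hΛ z
      exact FL_bound 2 (2 * n) Λ z hΛ)
    (by
      filter_upwards [eventually_ge_atTop 1] with Λ hΛ r
      exact bin_FL_nonneg 2 n Λ r hΛ)
  have h2 := whp_mom K hK (2 * n) 4 1 one_pos
  refine (h1.and h2).mono ?_
  filter_upwards [eventually_lam_pow_le 0 (2 * R ^ 2 : ℝ), eventually_le_lam (2 + 2 * (2 * n : ℕ))]
    with N hk0 hΛn G _ _ _ hG L hLlen hP hnd T hTC
  subst hG
  set N := Fintype.card G with hN
  obtain ⟨_, hTr⟩ := hP.1 hnd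
  have hMom := hP.2 hnd
  have hT : T.card ≤ K * L.length := by
    have h3 : (T.card : ℝ) ≤ (K * L.length : ℕ) := by
      push_cast
      exact hTC.trans (by gcongr)
    exact_mod_cast h3
  have hk4 : 2 * R ^ 2 ≤ L.length := by
    rw [hLlen]
    have : (2 * R ^ 2 : ℝ) ≤ Nat.sqrt N := by simpa using hk0
    exact_mod_cast this
  have hk1 : 1 ≤ L.length := by nlinarith
  have hΛ1 : 1 ≤ lam N := lam_pos N
  have hLN : L.length ^ 2 ≤ N := by rw [hLlen]; exact Nat.sqrt_le' N
  set Λ : ℕ := lam N with hΛdef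
  have hΛr : (1:ℝ) ≤ Λ := by exact_mod_cast hΛ1
  obtain ⟨hγ0, hγ1⟩ := gamma_bounds 2 Λ hΛ1
  rw [← hLlen] at hTr
  have htail : (1 - ((Λ:ℝ) ^ 2)⁻¹) ^ (Λ ^ 4) * (1 + 2 * (L.length:ℝ)) ^ (2 * n) ≤ 1 := by
    have h3 : (1 - ((Λ:ℝ) ^ 2)⁻¹) ^ (Λ ^ 4) ≤ Real.exp (-(Λ:ℝ) ^ 2) := by
      calc (1 - ((Λ:ℝ) ^ 2)⁻¹) ^ (Λ ^ 4) ≤
          (Real.exp (-((Λ:ℝ) ^ 2)⁻¹)) ^ (Λ ^ 4) := by
            apply pow_le_pow_left₀ hγ0
            have := Real.add_one_le_exp (-((Λ:ℝ) ^ 2)⁻¹)
            linarith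
        _ = Real.exp ((Λ ^ 4 : ℕ) * (-((Λ:ℝ) ^ 2)⁻¹)) := by rw [← Real.exp_nat_mul]
        _ = Real.exp (-(Λ:ℝ) ^ 2) := by
            congr 1
            push_cast
            field_simp
    have h4 : (1 + 2 * (L.length:ℝ)) ^ (2 * n) ≤ Real.exp ((2 * n : ℕ) * Λ) := by
      have h5 : 1 + 2 * (L.length:ℝ) ≤ Real.exp Λ := by
        have h6 := le_exp_lam N
        have h7 : (L.length : ℝ) ≤ N := by
          rw [hLlen]; exact_mod_cast Nat.sqrt_le_self N
        linarith
      calc (1 + 2 * (L.length:ℝ)) ^ (2 * n) ≤ (Real.exp Λ) ^ (2 * n) := by gcongr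
        _ = _ := by rw [← Real.exp_nat_mul]
    calc _ ≤ Real.exp (-(Λ:ℝ) ^ 2) * Real.exp ((2 * n : ℕ) * Λ) := by gcongr
      _ = Real.exp (-(Λ:ℝ) ^ 2 + (2 * n : ℕ) * Λ) := by rw [← Real.exp_add]
      _ ≤ Real.exp 0 := by
          apply Real.exp_le_exp.mpr
          have hQ0 : (0:ℝ) ≤ (2 * n : ℕ) := by positivity
          have : (Λ:ℝ) * (2 + 2 * (2 * n : ℕ)) ≤ Λ * Λ := by gcongr
          nlinarith
      _ = 1 := Real.exp_zero
  set k := L.length with hk
  set M : ℕ := k / R with hM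
  have hMle : R * M ≤ k := Nat.mul_div_le k R
  have hMge : k ≤ (R + 1) * M := by
    have h3 : k < R * (M + 1) := by
      have := Nat.lt_mul_div_succ k (show 0 < R by omega)
      simpa [hM] using this
    have h4 : R ≤ M := by
      rw [hM, Nat.le_div_iff_mul_le (by omega)]
      nlinarith
    nlinarith
  have hq0 : 0 ≤ 1 - C / R := by
    have : C / R ≤ 1 := by
      rw [div_le_one (by linarith)]
      exact hCR
    linarith
  have hq1 : 1 - C / R ≤ 1 := by
    have : 0 ≤ C / R := by positivity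
    linarith
  have hκ0 : 0 ≤ C / R * β + ε * K := by positivity
  -- induction over the blocks
  have hblocks : ∀ a : ℕ, (1 - C / R) ^ a - a * (C / R * β + ε * K) ≤
      unc T (suf (min (a * M) k) L) / N := by
    intro a
    induction a with
    | zero =>
      have h3 : min (0 * M) k = 0 := by simp
      rw [h3, suf_zero, unc_nil, ← hN]
      have hNpos : (0:ℝ) < N := by
        rw [hN]; exact_mod_cast Fintype.card_pos
      rw [div_self hNpos.ne']
      simp
    | succ a ih =>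
      have hb1 := block_step' K n (Λ ^ 4) 2 Λ (2 * Λ ^ (2 * (2 * (2 * n)) + 3)) R C ε
        ((Λ:ℝ) ^ 0 * (K * L.length)) β L hnd hK hC hR1 hΛ1 hk1 hLN hβ hTr hεpos.le hMom htail
        (by simp) T hT hTC (min (a * M) k) (min ((a + 1) * M) k)
        (min_le_min_right _ (Nat.mul_le_mul_right _ (Nat.le_succ a))) (min_le_right _ _)
        (by
          have : min ((a + 1) * M) k - min (a * M) k ≤ M := by
            have h5 : (a + 1) * M = a * M + M := by ring
            rw [h5]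
            exact min_sub_min_le _ _ _
          calc R * (min ((a + 1) * M) k - min (a * M) k) ≤ R * M :=
                Nat.mul_le_mul_left _ this
            _ ≤ k := hMle)
      rw [← hN] at hb1
      have h6 := mul_le_mul_of_nonneg_left ih hq0
      have h7 : (1 - C / R) * (a * (C / R * β + ε * K)) ≤ a * (C / R * β + ε * K) := by
        have : 0 ≤ (a:ℝ) * (C / R * β + ε * K) := by positivity
        nlinarith
      rw [pow_succ]
      push_cast
      linarith
  have hfin := hblocks (R + 1)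
  have hmin : min ((R + 1) * M) k = L.length := min_eq_right hMge
  rw [hmin, suf_length_self] at hfin
  have hNpos : (0:ℝ) < N := by
    rw [hN]; exact_mod_cast Fintype.card_pos
  have h8 : Real.exp (-C) - δ ≤ unc T L / N := by
    push_cast at hfin
    have e9 : ((R:ℝ) + 1) * (C / R * β + ε * K) =
        ((R:ℝ) + 1) * (C / R * β) + ((R:ℝ) + 1) * (ε * K) := by ring
    linarith
  rw [le_div_iff₀ hNpos] at h8
  exact h8

end Pool.Agent.Y415.CV
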